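import Pool.Agent.Run7.h507.KR.Defs

set_option autoImplicit false

open Pool.Agent.Run7.h507.KR

namespace Run7.h228.KR.TQ

lemma rec' (h : S_REC) (x : ℝ) (hx : 0 < x) :
    (8 / 25 * x + 1) * (T (17 / 50 * x) - T0) = 8 / 25 * (x - 1) * (T x - T0) := by
  have := h x hx
  linear_combination this

theorem t_TQ : S_PP → S_T0B → S_REC → S_TQ := by
  intro _ hT hR
  obtain ⟨h0, h1, -⟩ := hT
  have hq : ((17 : ℝ) / 50) ≠ 0 := by norm_num
  constructor
  · intro k hk
    induction k, hk using Int.le_induction with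
    | base =>
      have h := rec' hR 1 one_pos
      rw [zpow_one]
      norm_num at h
      linarith
    | succ k hk ih =>
      have hx : (0 : ℝ) < (17 / 50) ^ k := zpow_pos (by norm_num) k
      have h := rec' hR _ hx
      rw [ih, sub_self, mul_zero] at h
      have hp : (8 : ℝ) / 25 * (17 / 50) ^ k + 1 ≠ 0 := by positivity
      have h2 := (mul_eq_zero.1 h).resolve_left hp
      rw [zpow_add_one₀ hq, mul_comm]
      linarith
  · intro k hk
    induction k, hk using Int.le_induction_down with
    | base =>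
      rw [zpow_zero]
      linarith
    | pred k hk ih =>
      have hx : (0 : ℝ) < (17 / 50) ^ (k - 1) := zpow_pos (by norm_num) (k - 1)
      have h := rec' hR _ hx
      have e : (17 : ℝ) / 50 * (17 / 50) ^ (k - 1) = (17 / 50) ^ k := by
        rw [mul_comm, ← zpow_add_one₀ hq, sub_add_cancel]
      rw [e] at h
      have hx1 : (1 : ℝ) < (17 / 50) ^ (k - 1) := by
        have h3 : (1 : ℝ) < (50 / 17) ^ (1 - k) := one_lt_zpow₀ (by norm_num) (by omega)
        have h4 : ((17 : ℝ) / 50) ^ (k - 1) = (50 / 17) ^ (1 - k) := by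
          rw [show (50 : ℝ) / 17 = (17 / 50)⁻¹ by norm_num, inv_zpow', neg_sub]
        rw [h4]
        exact h3
      by_contra hc
      have hc' : 0 < T ((17 / 50) ^ (k - 1)) - T0 := by linarith [not_le.1 hc]
      have h5 : 0 < 8 / 25 * (((17 : ℝ) / 50) ^ (k - 1) - 1) * (T ((17 / 50) ^ (k - 1)) - T0) := by
        apply mul_pos _ hc'
        linarith
      have h6 : (8 / 25 * ((17 : ℝ) / 50) ^ (k - 1) + 1) * (T ((17 / 50) ^ k) - T0) ≤ 0 :=
        mul_nonpos_of_nonneg_of_nonpos (by positivity) (by linarith)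
      linarith

end Run7.h228.KR.TQ
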