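import Pool.Agent.Run7.h507.KR.Defs

set_option autoImplicit false

open MeasureTheory Metric Set Filter Topology Pool.Agent.Run7.h507.KR

namespace Run7.h228.KR.ZER

theorem t_ZER : S_ZER := by
  intro R φ m k hR hR1 hφ hk
  obtain ⟨j, hj⟩ : ∃ j : ℕ, (j : ℤ) + 1 = m - k := ⟨(m - k - 1).toNat, by omega⟩
  have hsub : closedBall (0 : ℂ) R ⊆ ball 0 1 := closedBall_subset_ball hR1
  have hd : DifferentiableOn ℂ (fun z : ℂ => z ^ j * φ z) (ball 0 1) :=
    (differentiableOn_id.pow j).mul hφ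
  have h0 : (∮ z in C(0, R), z ^ j * φ z) = 0 := by
    apply Complex.circleIntegral_eq_zero_of_differentiable_on_off_countable hR.le Set.countable_empty
    · exact (hd.mono hsub).continuousOn
    · intro z hz
      exact (hd z (ball_subset_ball hR1.le hz.1)).differentiableAt (isOpen_ball.mem_nhds
        (ball_subset_ball hR1.le hz.1))
  have hR0 : (R : ℂ) ≠ 0 := by exact_mod_cast hR.ne'
  have key : ∀ θ : ℝ, (circleMap 0 R θ) ^ m * φ (circleMap 0 R θ) *
      Complex.exp (-(((k : ℝ) * θ : ℝ) * Complex.I)) =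
      ((R : ℂ) ^ k / Complex.I) * (deriv (circleMap 0 R) θ •
        ((circleMap 0 R θ) ^ j * φ (circleMap 0 R θ))) := by
    intro θ
    have hz : circleMap 0 R θ ≠ 0 := circleMap_ne_center hR.ne'
    have e1 : (circleMap 0 R θ) ^ m = (circleMap 0 R θ) ^ (k : ℤ) * (circleMap 0 R θ) ^ (j + 1) := by
      rw [← zpow_natCast, ← zpow_natCast, ← zpow_add₀ hz]
      congr 1
      push_cast
      omega
    have e2 : (circleMap 0 R θ) ^ (k : ℤ) = (R : ℂ) ^ k * Complex.exp (((k : ℝ) * θ : ℝ) * Complex.I) := by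
      rw [circleMap_zero, mul_zpow, ← Complex.exp_int_mul]
      congr 2
      push_cast
      ring
    have e3 : Complex.exp (((k : ℝ) * θ : ℝ) * Complex.I) *
        Complex.exp (-(((k : ℝ) * θ : ℝ) * Complex.I)) = 1 := by
      rw [← Complex.exp_add, add_neg_cancel, Complex.exp_zero]
    rw [deriv_circleMap, smul_eq_mul, e1, e2, pow_succ]
    have hI := Complex.I_ne_zero
    calc (R : ℂ) ^ k * Complex.exp (((k : ℝ) * θ : ℝ) * Complex.I) *
        ((circleMap 0 R θ) ^ j * circleMap 0 R θ) * φ (circleMap 0 R θ) *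
          Complex.exp (-(((k : ℝ) * θ : ℝ) * Complex.I))
        = (R : ℂ) ^ k * ((circleMap 0 R θ) ^ j * circleMap 0 R θ) * φ (circleMap 0 R θ) *
          (Complex.exp (((k : ℝ) * θ : ℝ) * Complex.I) *
          Complex.exp (-(((k : ℝ) * θ : ℝ) * Complex.I))) := by ring
      _ = _ := by rw [e3]; field_simp
  unfold co
  have h1 : (∫ θ in (0 : ℝ)..(2 * Real.pi), (fun z => z ^ m * φ z) (circleMap 0 R θ) *
      Complex.exp (-(((k : ℝ) * θ : ℝ) * Complex.I))) =
      ((R : ℂ) ^ k / Complex.I) * ∮ z in C(0, R), z ^ j * φ z := by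
    rw [circleIntegral, ← intervalIntegral.integral_const_mul]
    exact intervalIntegral.integral_congr (fun θ _ => key θ)
  rw [h1, h0, mul_zero, mul_zero]

end Run7.h228.KR.ZER
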